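import Pool.Agent.H.MP_5661ce_lc.B

namespace Pool.Agent.Results.MP_5661ce_lc.Hard

open Pool.Agent.Lib.CX Pool.Agent.H.MP_5661ce_lc Finset

/-- numbers of points and of lines in unary, and the list of incidences -/
abbrev Inc := List Unit × List Unit × List (ℕ × ℕ)

/-- the rows of the linearised system are independent at some non-degenerate realization -/
def Indep (S : Inc) : Prop :=
  ∃ (x y : Fin S.1.length → ℝ) (A C : Fin S.2.1.length → ℝ),
    (∀ i j, (i.1, j.1) ∈ S.2.2 → A j * x i + y i + C j = 0) ∧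
    ¬ Collinear ℝ (Set.range fun i => (x i, y i)) ∧ (¬ ∃ p q : ℝ, ∀ j, A j * p + q + C j = 0) ∧
    LinearIndependent ℝ fun e : {e : Fin S.1.length × Fin S.2.1.length // (e.1.1, e.2.1) ∈ S.2.2} =>
      ((Pi.single e.1.1 (A e.1.2, 1), Pi.single e.1.2 (x e.1.1, 1)) :
        (Fin S.1.length → ℝ × ℝ) × (Fin S.2.1.length → ℝ × ℝ))

def px (c : ℕ → ℕ) (i : ℕ) : ℕ :=
  if i < 3 then 2 * i else if i = 3 then 1 else if (i - 4) / 3 % 2 = 0 then 2 * c ((i - 4) / 6) else
    if c ((i - 4) / 6) = 2 then 4 else 2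

noncomputable def sl (c : ℕ → ℕ) (j : ℕ) : ℝ :=
  if j = 1 then 1 else if j = 2 then -1 else if j % 5 = 3 ∧ px c (3 * (j / 5) + 4) = px c (j / 5 % 2) ∨
    j % 5 = 4 ∧ px c (3 * (j / 5) + 4) ≠ px c (j / 5 % 2) then 1 else 0

theorem px_g {c : ℕ → ℕ} (hc : ∀ u, c u < 3) (g : ℕ) : px c (3 * g + 5) = px c (3 * g + 4) ∧ px c (3 * g + 6) = px c (3 * g + 4) ∧
    px c (g % 2) ≠ px c (qq g) ∧ (px c (3 * g + 4) = px c (g % 2) ∨ px c (3 * g + 4) = px c (qq g)) := by
  have := hc (g / 2)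
  have e : ∀ i g, 3 * g + 4 ≤ i → i ≤ 3 * g + 6 → px c i = if g % 2 = 0 then 2 * c (g / 2) else if c (g / 2) = 2 then 4 else 2 :=
    fun i g h1 h2 => by
      rw [px, if_neg (by omega), if_neg (by omega), show (i - 4) / 3 = g by omega, show (i - 4) / 6 = g / 2 by omega]
  rw [e (3 * g + 4) g (by omega) (by omega), e (3 * g + 5) g (by omega) (by omega), e (3 * g + 6) g (by omega) (by omega), qq]
  by_cases h : g % 2 = 0
  · rw [if_pos h, if_pos h, e (3 * g + 7) (g + 1) (by omega) (by omega), if_neg (by omega), show (g + 1) / 2 = g / 2 by omega, h,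
      show px c 0 = 0 from rfl]
    split_ifs <;> omega
  · rw [if_neg h, if_neg h, show g % 2 = 1 by omega, show px c 1 = 2 from rfl, show px c 2 = 4 from rfl]
    split_ifs <;> omega

theorem sl_g (c : ℕ → ℕ) (g : ℕ) : sl c (5 * g + 3) = (if px c (3 * g + 4) = px c (g % 2) then 1 else 0) ∧
    sl c (5 * g + 4) = if px c (3 * g + 4) = px c (g % 2) then 0 else 1 := by
  simp [sl, show (5 * g + 3) / 5 = g by omega, show (5 * g + 4) / 5 = g by omega, show (5 * g + 3) % 5 = 3 by omega,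
    show (5 * g + 4) % 5 = 4 by omega]

theorem result : NPHard Indep := by
  refine col3_hard.red ⟨red, by unfold red inc gad edg qq; fun_prop, fun a => ⟨fun ⟨col⟩ => ?_, ?_⟩⟩
  · obtain ⟨c, hc, hE⟩ : ∃ c : ℕ → ℕ, (∀ u, c u < 3) ∧ ∀ u v, a.adjB u v → c u ≠ c v := by
      refine ⟨fun u => if h : u < a.n then col ⟨u, h⟩ else 0, fun u => by dsimp only; split_ifs <;> omega, fun u v h => ?_⟩
      have := adj_lt h
      simp only [this, dif_pos]
      exact Fin.val_ne_of_ne (col.valid ((a.adjB_iff ⟨u, this.1⟩ ⟨v, this.2.1⟩).1 h))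
    have l1 : (red a).1.length = 6 * a.n + 4 := List.length_replicate
    have l2 : (red a).2.1.length = 5 * (a.n * a.n) + 10 * a.n + 3 := List.length_replicate
    refine ⟨fun i => px c i, fun i => if i.1 = 3 then -1 else 0, fun j => sl c j,
      fun j => if j.1 = 1 then 0 else if j.1 = 2 then 2 else -sl c j * px c (3 * (j / 5) + 4), ?_, fun h => ?_, ?_, ?_⟩
    · rintro ⟨i, _⟩ ⟨j, _⟩ h
      dsimp only
      rcases cases_inc (show (i, j) ∈ inc a from h) with h | ⟨g, h1, h⟩ | ⟨t, h1, h2, h3, h4⟩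
      · rcases h with ⟨rfl, h⟩ | ⟨rfl, rfl | rfl⟩ | ⟨rfl, rfl | rfl⟩
        · simp [sl, show i ≠ 3 by omega]
        all_goals norm_num [sl, px]
      · obtain ⟨p1, p2, p3, p4⟩ := px_g hc g
        obtain ⟨s1, s2⟩ := sl_g c g
        have q : qq g ≠ 3 := by unfold qq; split_ifs <;> omega
        have d1 : (5 * g + 3) / 5 = g := by omega
        have d2 : (5 * g + 4) / 5 = g := by omega
        rcases h with ⟨rfl, rfl⟩ | ⟨rfl | rfl, rfl | rfl | rfl⟩ | ⟨rfl, rfl⟩ | ⟨rfl, rfl⟩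
        · simp [sl]
        iterate 6 simp [d1, d2, p1, p2]
        · simp only [s1, d1]
          split_ifs <;> simp_all <;> omega
        · simp only [s2, d2]
          split_ifs <;> simp_all
      · have : sl c j = 0 := by
          unfold sl
          split_ifs <;> first | rfl | omega
        simp [this, show i ≠ 3 by omega, show j ≠ 2 by omega]
    · obtain ⟨p, v, h⟩ := (collinear_iff_exists_forall_eq_smul_vadd _).1 h
      obtain ⟨r0, h0⟩ := h _ ⟨⟨0, by omega⟩, rfl⟩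
      obtain ⟨r1, h1⟩ := h _ ⟨⟨1, by omega⟩, rfl⟩
      obtain ⟨r3, h3⟩ := h _ ⟨⟨3, by omega⟩, rfl⟩
      simp [px, Prod.ext_iff] at h0 h1 h3
      have : (r1 - r0) * v.1 * ((r3 - r0) * v.2) = (r3 - r0) * v.1 * ((r1 - r0) * v.2) := by ring
      rw [show (r1 - r0) * v.1 = 2 by linarith, show (r3 - r0) * v.2 = -1 by linarith, show (r1 - r0) * v.2 = 0 by linarith] at this
      norm_num at this
    · rintro ⟨p, q, h⟩
      have h0 := h ⟨0, by omega⟩
      have h1 := h ⟨1, by omega⟩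
      have h2 := h ⟨2, by omega⟩
      norm_num [sl] at h0 h1 h2
      linarith
    · refine (li_iff (I := inc a) (l1 ▸ l2 ▸ bnd) (fun i => px c i) (sl c)).2 (l1 ▸ l2 ▸ free (by norm_num [sl])
        (fun u v h => ?_) fun g _ => ?_)
      · have := hE u v h
        have e : ∀ u, px c (6 * u + 4) = 2 * c u := fun u => by
          simp [px, show 6 * u / 3 % 2 = 0 by omega]
        simp only [e, ne_eq, Nat.cast_inj]
        omega
      · obtain ⟨p1, p2, p3, p4⟩ := px_g hc g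
        obtain ⟨s1, s2⟩ := sl_g c g
        rw [s1, s2, show sl c 0 = 0 by simp [sl]]
        split_ifs with h <;> simp [h]
        exact p3
  · rintro ⟨x, y, A, C, h1, -, -, h2⟩
    have l1 : (red a).1.length = 6 * a.n + 4 := List.length_replicate
    have l2 : (red a).2.1.length = 5 * (a.n * a.n) + 10 * a.n + 3 := List.length_replicate
    have e : ∀ {n} (f : Fin n → ℝ), ∃ g : ℕ → ℝ, f = fun i => g i.1 := fun {n} f =>
      ⟨fun i => if h : i < n then f ⟨i, h⟩ else 0, funext fun i => by simp⟩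
    obtain ⟨x, rfl⟩ := e x
    obtain ⟨y, rfl⟩ := e y
    obtain ⟨A, rfl⟩ := e A
    obtain ⟨C, rfl⟩ := e C
    exact sound (y := y) (C := C) (fun i j h => h1 ⟨i, l1 ▸ (bnd _ h).1⟩ ⟨j, l2 ▸ (bnd _ h).2⟩ h)
      (l1 ▸ l2 ▸ (li_iff (I := inc a) (l1 ▸ l2 ▸ bnd) x A).1 h2)

end Pool.Agent.Results.MP_5661ce_lc.Hard
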